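import Pool.Agent.W788.NV.Stm

/-! # Project NV: bounds for the random map -/

set_option autoImplicit false

namespace Pool.Agent.W490.NV

open Finset
open Pool.Agent.W788.NV

theorem bnd_ (h : MK) (h1 : S_LR) (h2 : S_EXP) (h3 : S_DRF) (h4 : S_EXM) (h5 : S_DL)
    (h6 : S_TOT) : S_BND := by
  intro V _ _ G q θ Δ hq hθ0 hθ1 hdeg hΔ v t ht
  have hr := (h6 V G q θ hq hθ0.le hθ1 hdeg).1
  have lr : ∀ F : Mp V q → ℝ, ex G q θ t F =
      sg (mrate G q θ) (mL (V := V) (q := q)) t F id := by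
    intro F
    exact h1 (V → Fin q) _ (mrate G q θ) act F t
  have smul : ∀ (c : ℝ) (F : Mp V q → ℝ), sg (mrate G q θ) (mL (V := V) (q := q)) t
      (fun Φ => c * F Φ) id = c * sg (mrate G q θ) (mL (V := V) (q := q)) t F id := by
    intro c F
    have h7 := h.lin (Mp V q) _ Unit (mrate G q θ) (mL (V := V) (q := q)) (fun _ => c)
      (fun _ => F) id t
    simpa using h7
  have hΔ1 : 1 ≤ Δ := (hdeg v).trans (hΔ v)
  have hΔ0 : (0 : ℝ) < Δ := by exact_mod_cast hΔ1
  -- the initial value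
  have hid : wdep G (id : Mp V q) v ≤ Δ := by
    have hs := (h5 V q id v).2.2.2
    unfold wdep
    calc ∑ w ∈ dep (id : Mp V q) v, (dg G w : ℝ) ≤ ∑ w ∈ ({v} : Finset V), (dg G w : ℝ) :=
          sum_le_sum_of_subset_of_nonneg hs (fun _ _ _ => by positivity)
      _ = (dg G v : ℝ) := by simp
      _ ≤ Δ := by exact_mod_cast hΔ v
  have hw0 : ∀ Φ : Mp V q, 0 ≤ wdep G Φ v := fun Φ => sum_nonneg fun _ _ => by positivity
  have hcard : ∀ Φ : Mp V q, ((dep Φ v).card : ℝ) ≤ wdep G Φ v := by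
    intro Φ
    unfold wdep
    rw [card_eq_sum_ones, Nat.cast_sum]
    refine sum_le_sum fun w _ => ?_
    have := hdeg w
    push_cast
    exact_mod_cast this
  -- part 1
  have p1 : ex G q θ t (fun Φ => wdep G Φ v) ≤ Δ * Real.exp (-θ * t) := by
    rw [lr]
    refine (h2 (Mp V q) _ (mrate G q θ) (mL (V := V) (q := q)) (fun Φ => wdep G Φ v) (-θ) id t
      hr ht (fun Φ => (h3 V G q θ hq hθ0.le hθ1 hdeg Φ v).le)).trans ?_
    rw [mul_comm]
    exact mul_le_mul_of_nonneg_right hid (Real.exp_pos _).le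
  -- part 2
  have p2' : ∀ l : ℝ, 0 ≤ l → 2 * l * Δ ≤ θ → sg (mrate G q θ) (mL (V := V) (q := q)) t
      (fun Φ => Real.exp (l * wdep G Φ v)) id ≤ Real.exp (l * Δ) := by
    intro l hl hl2
    refine (h2 (Mp V q) _ (mrate G q θ) (mL (V := V) (q := q))
      (fun Φ => Real.exp (l * wdep G Φ v)) 0 id t hr ht (fun Φ => ?_)).trans ?_
    · rw [zero_mul]
      exact h4 V G q θ Δ l hq hθ0 hθ1 hdeg hΔ hl hl2 Φ v
    · rw [zero_mul, Real.exp_zero, one_mul]
      exact Real.exp_le_exp.2 (mul_le_mul_of_nonneg_left hid hl)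
  set l : ℝ := θ / (2 * Δ) with hl
  have hl0 : 0 < l := by positivity
  have hlΔ : l * Δ = θ / 2 := by
    rw [hl]
    field_simp
  have hl2 : 2 * l * Δ ≤ θ := by
    rw [mul_assoc, hlΔ]
    linarith
  refine ⟨p1, ?_, ?_, ?_, ?_⟩
  · intro l hl hl2
    rw [lr]
    exact p2' l hl hl2
  · intro M hM
    rw [lr]
    refine (h.mono _ _ _ _ _ (fun Φ => Real.exp (-(l * M)) * Real.exp (l * wdep G Φ v)) id t hr ht
      (fun Φ => ?_)).trans ?_
    · rw [← Real.exp_add]
      split_ifs with hc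
      · apply Real.one_le_exp
        have := hc.le.trans (hcard Φ)
        nlinarith
      · exact (Real.exp_pos _).le
    · rw [smul]
      refine (mul_le_mul_of_nonneg_left (p2' l hl0.le hl2) (Real.exp_pos _).le).trans ?_
      rw [← Real.exp_add, hlΔ]
      apply le_of_eq
      congr 1
      rw [hl]
      ring
  · rw [lr]
    refine (h.mono _ _ _ _ _ (fun Φ => (8 * Δ ^ 2 / θ ^ 2) * Real.exp (l * wdep G Φ v)) id t hr ht
      (fun Φ => ?_)).trans ?_
    · have e1 : ((dep Φ v).card : ℝ) ^ 2 ≤ (wdep G Φ v) ^ 2 :=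
        pow_le_pow_left₀ (by positivity) (hcard Φ) 2
      have hy : 0 ≤ l * wdep G Φ v := mul_nonneg hl0.le (hw0 Φ)
      have e2 : (l * wdep G Φ v) ^ 2 / 2 ≤ Real.exp (l * wdep G Φ v) := by
        have := Real.quadratic_le_exp_of_nonneg hy
        linarith
      have e3 : (wdep G Φ v) ^ 2 = (8 * Δ ^ 2 / θ ^ 2) * ((l * wdep G Φ v) ^ 2 / 2) := by
        rw [hl]
        field_simp
        ring
      rw [e3] at e1
      exact e1.trans (mul_le_mul_of_nonneg_left e2 (by positivity))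
    · rw [smul]
      refine mul_le_mul_of_nonneg_left ?_ (by positivity)
      rw [← hlΔ]
      exact p2' l hl0.le hl2
  · refine le_trans ?_ p1
    rw [lr, lr]
    refine h.mono _ _ _ _ _ _ id t hr ht (fun Φ => ?_)
    split_ifs with hc
    · refine le_trans ?_ (hcard Φ)
      have := card_pos.2 hc
      exact_mod_cast this
    · exact hw0 Φ

end Pool.Agent.W490.NV
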